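import Mathlib

/-!
# A polynomial intertwined with an affine precomposition outside its symmetry group

Over every algebraically closed field of characteristic zero the non-integrable polynomial
`P = -z ^ 9 - 3 z ^ 6 - 3 z ^ 3 = 1 - (z ^ 3 + 1) ^ 3` and the translation `g(z) = z - 2` are such
that `P ∘ g` and `P` are intertwined: the curve `w = (z - 2) ^ 3 + 1` is invariant.  A translation
is never in `Σ(P)`.
-/

set_option autoImplicit false

open Polynomial

namespace Pool.Agent.Results.MP_2eeab0_an.AffinePrecomposition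

variable {K : Type*} [Field K]

/-- affine maps `z ↦ a z + b` with `a ≠ 0` -/
def IsAffine (A : K[X]) : Prop := ∃ a b : K, a ≠ 0 ∧ A = C a * X + C b

/-- the affine plane curve `F(z, w) = 0`, where `F` is a polynomial in `w` over `K[z]` -/
def curve (F : K[X][X]) : Set (K × K) := {p | F.evalEval p.1 p.2 = 0}

/-- `P` and `Q` are intertwined: some irreducible plane curve `Z` projecting onto both coordinate
axes is invariant, `(P × Q)(Z) = Z`. -/
def Intertwined (P Q : K[X]) : Prop :=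
  ∃ F : K[X][X], Irreducible F ∧
    (fun p : K × K => (P.eval p.1, Q.eval p.2)) '' curve F = curve F ∧
    Prod.fst '' curve F = Set.univ ∧ Prod.snd '' curve F = Set.univ

/-- `T` is the Chebyshev polynomial `T_d`, normalised by `T_d(w + 1/w) = w ^ d + 1/w ^ d`. -/
def IsChebyshev (d : ℕ) (T : K[X]) : Prop :=
  ∀ w : K, w ≠ 0 → T.eval (w + w⁻¹) = w ^ d + (w⁻¹) ^ d

/-- `P` is integrable: affinely conjugate to `z ^ d` or to `± T_d`, with `d` the degree of `P`. -/
def Integrable (P : K[X]) : Prop :=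
  ∃ A : K[X], IsAffine A ∧
    (P.comp A = A.comp (X ^ P.natDegree) ∨
      ∃ T : K[X], IsChebyshev P.natDegree T ∧
        (P.comp A = A.comp T ∨ P.comp A = A.comp (-T)))

/-- the rotation `z ↦ ζ z` belongs to `Σ(P)`, for a monic and centered polynomial `P`: either `P`
is a monomial and `ζ` is a root of unity, or `P = z ^ μ P₀(z ^ m)` is the reduced form of `P` and
`ζ ^ m = 1` -/
def RotationInSigma (P : K[X]) (ζ : K) : Prop :=
  (P = X ^ P.natDegree ∧ ∃ n : ℕ, 1 ≤ n ∧ ζ ^ n = 1) ∨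
  (∃ (μ m : ℕ) (P₀ : K[X]), P = X ^ μ * P₀.comp (X ^ m) ∧ P₀.eval 0 ≠ 0 ∧ P₀ ≠ 1 ∧
    (∀ (Q : K[X]) (l : ℕ), 2 ≤ l → P₀ ≠ Q.comp (X ^ l)) ∧ ζ ^ m = 1)

/-- `g` belongs to the symmetry group `Σ(P)`: for some affine `A` such that `P₁ = A⁻¹ ∘ P ∘ A` is
monic and centered, `g = A ∘ σ ∘ A⁻¹` for some rotation `σ` in `Σ(P₁)`. -/
def InSigma (P g : K[X]) : Prop :=
  ∃ A P₁ : K[X], IsAffine A ∧ P.comp A = A.comp P₁ ∧ P₁.Monic ∧
    P₁.coeff (P₁.natDegree - 1) = 0 ∧
    ∃ ζ : K, RotationInSigma P₁ ζ ∧ g.comp A = A.comp (C ζ * X)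

lemma exists_eval_eq [IsAlgClosed K] {p : K[X]} (hp : 1 ≤ p.natDegree) (y : K) :
    ∃ x, p.eval x = y := by
  have h1 : (p - C y).natDegree = p.natDegree := natDegree_sub_C
  have h2 : (p - C y).degree ≠ 0 := by
    intro h0
    have := natDegree_eq_of_degree_eq_some (n := 0) h0
    omega
  obtain ⟨x, hx⟩ := IsAlgClosed.exists_root (p - C y) h2
  refine ⟨x, ?_⟩
  rw [IsRoot.def, eval_sub, eval_C, sub_eq_zero] at hx
  exact hx

/-- a semi-conjugacy gives an invariant graph -/
lemma intertwined_of_semiconj [IsAlgClosed K] {p P Q : K[X]} (hp : 1 ≤ p.natDegree)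
    (hP : 1 ≤ P.natDegree) (h : p.comp P = Q.comp p) : Intertwined P Q := by
  have hcurve : ∀ q : K × K, q ∈ curve (X - C p : K[X][X]) ↔ q.2 = p.eval q.1 := by
    intro q
    simp [curve, evalEval, sub_eq_zero]
  refine ⟨X - C p, irreducible_X_sub_C p, ?_, ?_, ?_⟩
  · ext q
    constructor
    · rintro ⟨r, hr, rfl⟩
      rw [hcurve] at hr ⊢
      have := congrArg (Polynomial.eval r.1) h
      rw [eval_comp, eval_comp] at this
      simp only [hr, this]
    · intro hq
      rw [hcurve] at hq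
      obtain ⟨x, hx⟩ := exists_eval_eq hP q.1
      refine ⟨(x, p.eval x), ?_, ?_⟩
      · rw [hcurve]
      · have := congrArg (Polynomial.eval x) h
        rw [eval_comp, eval_comp, hx] at this
        ext
        · exact hx
        · change Q.eval (p.eval x) = q.2
          rw [← this, hq]
  · rw [Set.eq_univ_iff_forall]
    intro x
    exact ⟨(x, p.eval x), (hcurve _).2 rfl, rfl⟩
  · rw [Set.eq_univ_iff_forall]
    intro y
    obtain ⟨x, hx⟩ := exists_eval_eq hp y
    exact ⟨(x, p.eval x), (hcurve _).2 rfl, hx⟩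

/-- the counterexample -/
noncomputable def P : K[X] := -X ^ 9 - 3 * X ^ 6 - 3 * X ^ 3

lemma P_natDegree : (P : K[X]).natDegree = 9 := by
  unfold P
  compute_degree!

lemma comp_expand (a b : K) : (P : K[X]).comp (C a * X + C b) =
    C (-a ^ 9) * X ^ 9 + C (-9 * a ^ 8 * b) * X ^ 8 + C (-36 * a ^ 7 * b ^ 2) * X ^ 7 +
      C (-84 * a ^ 6 * b ^ 3 - 3 * a ^ 6) * X ^ 6 + C (-126 * a ^ 5 * b ^ 4 - 18 * a ^ 5 * b) * X ^ 5
      + C (-126 * a ^ 4 * b ^ 5 - 45 * a ^ 4 * b ^ 2) * X ^ 4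
      + C (-84 * a ^ 3 * b ^ 6 - 60 * a ^ 3 * b ^ 3 - 3 * a ^ 3) * X ^ 3
      + C (-36 * a ^ 2 * b ^ 7 - 45 * a ^ 2 * b ^ 4 - 9 * a ^ 2 * b) * X ^ 2
      + C (-9 * a * b ^ 8 - 18 * a * b ^ 5 - 9 * a * b ^ 2) * X
      + C (- b ^ 9 - 3 * b ^ 6 - 3 * b ^ 3) := by
  unfold P
  simp only [sub_comp, neg_comp, mul_comp, pow_comp, X_comp, ofNat_comp, map_sub, map_neg, map_mul,
    map_pow, map_ofNat]
  ring

lemma cheb_nine [IsAlgClosed K] {T : K[X]} (hT : IsChebyshev 9 T) :
    T = X ^ 9 - 9 * X ^ 7 + 27 * X ^ 5 - 30 * X ^ 3 + 9 * X := by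
  apply Polynomial.funext
  intro x
  obtain ⟨w, hw⟩ := exists_eval_eq (K := K) (p := X ^ 2 - C x * X) (by
    have : (X ^ 2 - C x * X : K[X]).natDegree = 2 := by compute_degree!
    omega) (-1)
  have hw' : w ^ 2 - x * w = -1 := by simpa using hw
  have hw0 : w ≠ 0 := by
    rintro rfl
    simp at hw'
  have hx : x = w + w⁻¹ := by
    field_simp
    linear_combination -hw'
  rw [hx, hT w hw0]
  simp
  field_simp
  ring

lemma coeff_eqs [CharZero K] {a b : K} (ha : a ≠ 0) {S : K[X]}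
    (h : (P : K[X]).comp (C a * X + C b) = (C a * X + C b).comp S) (hS : S.coeff 8 = 0) :
    b = 0 ∧ S.coeff 7 = 0 ∧ S.coeff 6 ≠ 0 := by
  have hco : ∀ k : ℕ, 1 ≤ k → ((C a * X + C b).comp S).coeff k = a * S.coeff k := by
    intro k hk
    simp [coeff_C, show k ≠ 0 by omega]
  have h8 := congrArg (fun q => q.coeff 8) h
  simp only [hco 8 (by norm_num), hS, comp_expand] at h8
  simp only [coeff_add, coeff_C_mul, coeff_X_pow, coeff_X, coeff_C] at h8
  norm_num at h8
  have hb : b = 0 := by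
    rcases h8 with h8 | h8
    · exact absurd h8 ha
    · exact h8
  have h7 := congrArg (fun q => q.coeff 7) h
  simp only [hco 7 (by norm_num), comp_expand] at h7
  simp only [coeff_add, coeff_C_mul, coeff_X_pow, coeff_X, coeff_C, hb] at h7
  norm_num at h7
  have h6 := congrArg (fun q => q.coeff 6) h
  simp only [hco 6 (by norm_num), comp_expand] at h6
  simp only [coeff_add, coeff_C_mul, coeff_X_pow, coeff_X, coeff_C, hb] at h6
  norm_num at h6
  refine ⟨hb, ?_, ?_⟩
  · rcases h7 with h7 | h7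
    · exact absurd h7 ha
    · exact h7
  · intro h0
    rw [h0] at h6
    simp [ha] at h6

lemma P_not_integrable [CharZero K] [IsAlgClosed K] : ¬ Integrable (P : K[X]) := by
  rintro ⟨A, ⟨a, b, ha, rfl⟩, h⟩
  rw [P_natDegree] at h
  rcases h with h | ⟨T, hT, h⟩
  · obtain ⟨-, -, h6⟩ := coeff_eqs ha h (by simp [coeff_X_pow])
    exact h6 (by simp [coeff_X_pow])
  · have hT' := cheb_nine hT
    rcases h with h | h
    · obtain ⟨-, h7, -⟩ := coeff_eqs ha h (by
        rw [hT']
        simp [coeff_X_pow, coeff_X])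
      rw [hT'] at h7
      simp [coeff_X_pow, coeff_X] at h7
    · obtain ⟨-, h7, -⟩ := coeff_eqs ha h (by
        rw [hT']
        simp [coeff_X_pow, coeff_X])
      rw [hT'] at h7
      simp [coeff_X_pow, coeff_X] at h7

/-- Main result: over every algebraically closed field of characteristic zero there are a
non-integrable polynomial `P` and an affine map `g` outside the symmetry group `Σ(P)` such that
`P ∘ g` and `P` are intertwined. -/
theorem result : ∀ (K : Type*) [Field K] [CharZero K] [IsAlgClosed K],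
    ∃ P g : K[X], 2 ≤ P.natDegree ∧ ¬ Integrable P ∧ IsAffine g ∧
      Intertwined (P.comp g) P ∧ ¬ InSigma P g := by
  intro K _ _ _
  refine ⟨P, X - C 2, by rw [P_natDegree]; norm_num, P_not_integrable,
    ⟨1, -2, one_ne_zero, by simp [sub_eq_add_neg]⟩, ?_, ?_⟩
  · apply intertwined_of_semiconj (p := (X - C 2) ^ 3 + 1)
    · have : ((X - C 2) ^ 3 + 1 : K[X]).natDegree = 3 := by compute_degree!
      omega
    · rw [natDegree_comp, P_natDegree, natDegree_X_sub_C]
      norm_num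
    · unfold P
      simp only [sub_comp, neg_comp, mul_comp, pow_comp, X_comp, ofNat_comp, add_comp, one_comp,
        C_comp]
      have : (C 2 : K[X]) = 2 := map_ofNat C 2
      rw [this]
      ring
  · rintro ⟨A, P₁, ⟨a, b, ha, rfl⟩, -, -, -, ζ, -, h⟩
    have h1 := congrArg (fun q => q.coeff 0) h
    simp [coeff_C] at h1

end Pool.Agent.Results.MP_2eeab0_an.AffinePrecomposition
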